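import Pool.Agent.helper54.V3.SpecT

/-!
# Project v3, module TUL: bounded sequences have ultralimits
-/

set_option autoImplicit false

open Complex Metric Set Filter Topology MeasureTheory

noncomputable section

namespace V3

theorem TUL : TUL_stmt := by
  intro U a C h
  have hc : IsCompact (closedBall (0 : ℂ) C) := isCompact_closedBall 0 C
  have h1 : ((U.map a : Ultrafilter ℂ) : Filter ℂ) ≤ 𝓟 (closedBall (0 : ℂ) C) := by
    rw [le_principal_iff, Ultrafilter.mem_coe, Ultrafilter.mem_map]
    filter_upwards [h] with m hm
    simpa using hm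
  obtain ⟨z, hz, hz'⟩ := hc.ultrafilter_le_nhds _ h1
  refine ⟨z, by simpa using hz, ?_⟩
  exact hz'

end V3
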