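import Pool.Agent.helper54.V3.SpecE

/-!
# Project v3, module PPH: the phases at the two ends
-/

set_option autoImplicit false

open Complex Metric Set Filter Topology MeasureTheory

noncomputable section

namespace V3

/-- the conjugate phase -/
def PPH_ph (w : ℂ) : ℂ := ((‖w‖ : ℝ) : ℂ) / w

theorem PPH_ph_mul (w z : ℂ) : PPH_ph (w * z) = PPH_ph w * PPH_ph z := by
  simp only [PPH_ph, norm_mul, ofReal_mul]
  rw [mul_div_mul_comm]

theorem PPH_norm_ph (w : ℂ) (hw : w ≠ 0) : ‖PPH_ph w‖ = 1 := by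
  have : ‖w‖ ≠ 0 := norm_ne_zero_iff.mpr hw
  simp only [PPH_ph, norm_div, norm_real, norm_norm]
  exact div_self this

theorem PPH_one_add (u : ℂ) (hu : ‖u‖ ≤ 1 / 2) : ‖PPH_ph (1 + u) - 1‖ ≤ 4 * ‖u‖ := by
  have h1 : (1 : ℝ) - ‖u‖ ≤ ‖1 + u‖ := by
    have h := norm_sub_le (1 + u) u
    simp only [add_sub_cancel_right, norm_one] at h
    linarith
  have h1' : ‖1 + u‖ ≤ 1 + ‖u‖ := by
    have h := norm_add_le (1 : ℂ) u
    simpa using h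
  have h2 : (1 : ℝ) / 2 ≤ ‖1 + u‖ := by linarith
  have h3 : (1 + u) ≠ 0 := by
    intro h0
    rw [h0, norm_zero] at h2
    norm_num at h2
  have h4 : PPH_ph (1 + u) - 1 = (((‖1 + u‖ - 1 : ℝ) : ℂ) - u) / (1 + u) := by
    rw [PPH_ph, ofReal_sub, ofReal_one]
    field_simp
    ring
  rw [h4, norm_div]
  have h5 : ‖((‖1 + u‖ - 1 : ℝ) : ℂ) - u‖ ≤ 2 * ‖u‖ := by
    calc ‖((‖1 + u‖ - 1 : ℝ) : ℂ) - u‖ ≤ ‖((‖1 + u‖ - 1 : ℝ) : ℂ)‖ + ‖u‖ := norm_sub_le _ _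
      _ ≤ ‖u‖ + ‖u‖ := by
          rw [norm_real, Real.norm_eq_abs]
          have : |‖1 + u‖ - 1| ≤ ‖u‖ := abs_le.mpr ⟨by linarith, by linarith⟩
          linarith
      _ = 2 * ‖u‖ := by ring
  rw [div_le_iff₀ (by linarith)]
  have h6 : 0 ≤ ‖u‖ := norm_nonneg u
  nlinarith

theorem PPH_F (a b Z : ℂ) (ha : a ≠ 0) (κ : ℝ) (hκ : ‖b‖ / ‖a‖ + 3 ≤ κ) (hZ : 8 * κ * ‖Z‖ ≤ 1) :
    ‖PPH_ph ((a + b * Z) / (1 - Z) ^ 2) - PPH_ph a‖ ≤ 16 * κ * ‖Z‖ := by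
  have ha' : 0 < ‖a‖ := norm_pos_iff.mpr ha
  have hba : 0 ≤ ‖b‖ / ‖a‖ := by positivity
  have hZ0 : 0 ≤ ‖Z‖ := norm_nonneg Z
  have hZ1 : ‖Z‖ ≤ 1 / 24 := by nlinarith
  have h1 : (1 : ℝ) / 2 ≤ ‖1 - Z‖ := by
    have h := norm_sub_norm_le (1 : ℂ) Z
    rw [norm_one] at h
    linarith
  have hne : (1 - Z) ≠ 0 := by
    intro h0
    rw [h0, norm_zero] at h1
    norm_num at h1
  set w : ℂ := (b / a * Z + 2 * Z - Z ^ 2) / (1 - Z) ^ 2 with hw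
  have hF : (a + b * Z) / (1 - Z) ^ 2 = a * (1 + w) := by
    rw [hw]
    field_simp
    ring
  have hwn : ‖w‖ ≤ 4 * κ * ‖Z‖ := by
    rw [hw, norm_div, norm_pow, div_le_iff₀ (by positivity)]
    have h2 : ‖b / a * Z + 2 * Z - Z ^ 2‖ ≤ κ * ‖Z‖ := by
      calc ‖b / a * Z + 2 * Z - Z ^ 2‖ ≤ ‖b / a * Z + 2 * Z‖ + ‖Z ^ 2‖ := norm_sub_le _ _
        _ ≤ ‖b / a * Z‖ + ‖2 * Z‖ + ‖Z ^ 2‖ := by
            have := norm_add_le (b / a * Z) (2 * Z)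
            linarith
        _ = ‖b‖ / ‖a‖ * ‖Z‖ + 2 * ‖Z‖ + ‖Z‖ ^ 2 := by
            rw [norm_mul, norm_mul, norm_div, norm_pow]
            norm_num
        _ ≤ κ * ‖Z‖ := by nlinarith
    have h3 : (1 : ℝ) / 4 ≤ ‖1 - Z‖ ^ 2 := by nlinarith
    have h4 : 0 ≤ 4 * κ * ‖Z‖ := by
      have : 0 ≤ κ := by linarith
      positivity
    nlinarith
  have hw2 : ‖w‖ ≤ 1 / 2 := by linarith
  have h5 := PPH_one_add w hw2
  rw [hF, PPH_ph_mul]
  have h6 : PPH_ph a * PPH_ph (1 + w) - PPH_ph a = PPH_ph a * (PPH_ph (1 + w) - 1) := by ring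
  rw [h6, norm_mul, PPH_norm_ph a ha, one_mul]
  linarith

theorem PPH_exp_small (κ η : ℝ) (hκ : 3 ≤ κ) (hη : 8 * κ ≤ η) : 8 * κ * Real.exp (-(2 * Real.pi * η)) ≤ 1 := by
  have hpi : 3 < Real.pi := Real.pi_gt_three
  have hη0 : 0 < η := by linarith
  have h1 : 2 * Real.pi * η + 1 ≤ Real.exp (2 * Real.pi * η) := Real.add_one_le_exp _
  have h2 : η ≤ Real.exp (2 * Real.pi * η) := by nlinarith
  rw [Real.exp_neg, ← div_eq_mul_inv, div_le_one (Real.exp_pos _)]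
  linarith

/-- the exponential of a unit multiple -/
theorem PPH_phY (s η : ℝ) (n : ℤ) :
    PPH_ph (exp (2 * Real.pi * I * (s + η * I)) ^ n) = exp (-(2 * Real.pi * I * n * s)) := by
  have h0 : exp (2 * Real.pi * I * (s + η * I)) ≠ 0 := exp_ne_zero _
  have h1 : exp (2 * Real.pi * I * (s + η * I)) ^ n = exp (2 * Real.pi * I * n * s + ((-(2 * Real.pi * n * η) : ℝ) : ℂ)) := by
    rw [← exp_int_mul]
    congr 1
    push_cast
    ring_nf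
    rw [I_sq]
    ring
  have h2 : ‖exp (2 * Real.pi * I * n * s + ((-(2 * Real.pi * n * η) : ℝ) : ℂ))‖ = Real.exp (-(2 * Real.pi * n * η)) := by
    rw [norm_exp]
    congr 1
    simp
  rw [PPH_ph, h1, h2, exp_add, ofReal_exp, exp_neg (2 * Real.pi * I * n * s)]
  have h3 : cexp (((-(2 * Real.pi * n * η) : ℝ) : ℂ)) ≠ 0 := exp_ne_zero _
  have h4 : cexp (2 * Real.pi * I * n * s) ≠ 0 := exp_ne_zero _
  field_simp

theorem PPH_normY (s η : ℝ) : ‖exp (2 * Real.pi * I * (s + η * I))‖ = Real.exp (-(2 * Real.pi * η)) := by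
  rw [norm_exp]
  congr 1
  simp

theorem PPH_notmem (t : ℂ) (ht : t ≠ 0) (s η : ℝ) (hη : η ≠ 0) : t * (s + η * I) ∉ ZL t := by
  rintro ⟨n, hn⟩
  have h1 : (n : ℂ) = s + η * I := by
    have h2 : t * (n : ℂ) = t * (s + η * I) := by
      rw [← hn]
      ring
    exact mul_left_cancel₀ ht h2
  have h3 := congrArg Complex.im h1
  simp at h3
  exact hη h3.symm

theorem PPH_twist (y F c : ℂ) (hy : y ≠ 0) (δ : ℝ) (h : ‖PPH_ph F - c‖ ≤ δ) :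
    ‖PPH_ph (y * F) - c * PPH_ph y‖ ≤ δ := by
  have h6 : PPH_ph (y * F) - c * PPH_ph y = PPH_ph y * (PPH_ph F - c) := by
    rw [PPH_ph_mul]
    ring
  rw [h6, norm_mul, PPH_norm_ph y hy, one_mul]
  exact h

/-- the upper end -/
theorem PPH_up (B : ℂ → ℂ) (t α β : ℂ) (ht : t ≠ 0) (hab : α ≠ 0 ∨ β ≠ 0) (hB : ∀ x ∉ ZL t,
    B x = (α * exp (2 * Real.pi * I * x / t) ^ 2 + β * exp (2 * Real.pi * I * x / t)) /
      (exp (2 * Real.pi * I * x / t) - 1) ^ 2) :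
    ∃ (K Y₀ : ℝ) (j : ℤ) (c : ℂ), 0 < Y₀ ∧ 0 ≤ K ∧ 1 ≤ j ∧ ‖c‖ = 1 ∧
    (∀ s η : ℝ, Y₀ ≤ η → ‖PPH_ph (B (t * (s + η * I))) -
      c * exp (-(2 * Real.pi * I * j * s))‖ ≤ K * Real.exp (-(2 * Real.pi * η))) := by
  by_cases hβ : β = 0
  · have hα : α ≠ 0 := by
      rcases hab with h | h
      · exact h
      · exact absurd hβ h
    refine ⟨16 * 3, 8 * 3, 2, PPH_ph α, by norm_num, by norm_num, by norm_num, PPH_norm_ph α hα, ?_⟩
    intro s η hη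
    have hη0 : η ≠ 0 := by linarith
    rw [hB _ (PPH_notmem t ht s η hη0)]
    have hx : 2 * Real.pi * I * (t * (s + η * I)) / t = 2 * Real.pi * I * (s + η * I) := by
      field_simp
    rw [hx]
    set Y := exp (2 * Real.pi * I * (s + η * I)) with hY
    have hY0 : Y ≠ 0 := exp_ne_zero _
    have hYn : ‖Y‖ = Real.exp (-(2 * Real.pi * η)) := PPH_normY s η
    have e1 : (α * Y ^ 2 + β * Y) / (Y - 1) ^ 2 = Y ^ (2 : ℤ) * ((α + 0 * Y) / (1 - Y) ^ 2) := by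
      rw [hβ]
      have : (Y - 1) ^ 2 = (1 - Y) ^ 2 := by ring
      rw [this]
      have h2 : Y ^ (2 : ℤ) = Y ^ 2 := by norm_cast
      rw [h2]
      ring
    rw [e1, ← PPH_phY s η 2]
    refine PPH_twist _ _ _ (zpow_ne_zero _ hY0) _ ?_
    have h3 := PPH_F α 0 Y hα 3 (by simp) (by rw [hYn]; exact PPH_exp_small 3 η le_rfl hη)
    rw [hYn] at h3
    exact h3
  · refine ⟨16 * (‖α‖ / ‖β‖ + 3), 8 * (‖α‖ / ‖β‖ + 3), 1, PPH_ph β, by positivity, by positivity, le_rfl,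
      PPH_norm_ph β hβ, ?_⟩
    intro s η hη
    have hk : 0 ≤ ‖α‖ / ‖β‖ := by positivity
    have hη0 : η ≠ 0 := by
      have : 0 < η := by linarith
      exact this.ne'
    rw [hB _ (PPH_notmem t ht s η hη0)]
    have hx : 2 * Real.pi * I * (t * (s + η * I)) / t = 2 * Real.pi * I * (s + η * I) := by
      field_simp
    rw [hx]
    set Y := exp (2 * Real.pi * I * (s + η * I)) with hY
    have hY0 : Y ≠ 0 := exp_ne_zero _
    have hYn : ‖Y‖ = Real.exp (-(2 * Real.pi * η)) := PPH_normY s η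
    have e1 : (α * Y ^ 2 + β * Y) / (Y - 1) ^ 2 = Y ^ (1 : ℤ) * ((β + α * Y) / (1 - Y) ^ 2) := by
      have : (Y - 1) ^ 2 = (1 - Y) ^ 2 := by ring
      rw [this, zpow_one]
      ring
    rw [e1, ← PPH_phY s η 1]
    refine PPH_twist _ _ _ (zpow_ne_zero _ hY0) _ ?_
    have h3 := PPH_F β α Y hβ (‖α‖ / ‖β‖ + 3) le_rfl
      (by rw [hYn]; exact PPH_exp_small _ η (by linarith) hη)
    rw [hYn] at h3
    exact h3

/-- the lower end -/
theorem PPH_low (B : ℂ → ℂ) (t α β : ℂ) (ht : t ≠ 0) (hab : α ≠ 0 ∨ β ≠ 0) (hB : ∀ x ∉ ZL t,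
    B x = (α * exp (2 * Real.pi * I * x / t) ^ 2 + β * exp (2 * Real.pi * I * x / t)) /
      (exp (2 * Real.pi * I * x / t) - 1) ^ 2) :
    ∃ (K Y₀ : ℝ) (j : ℤ) (c : ℂ), 0 < Y₀ ∧ 0 ≤ K ∧ j ≤ 0 ∧ ‖c‖ = 1 ∧
    (∀ s η : ℝ, η ≤ -Y₀ → ‖PPH_ph (B (t * (s + η * I))) -
      c * exp (-(2 * Real.pi * I * j * s))‖ ≤ K * Real.exp (2 * Real.pi * η)) := by
  by_cases hα : α = 0
  · have hβ : β ≠ 0 := by
      rcases hab with h | h
      · exact absurd hα h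
      · exact h
    refine ⟨16 * 3, 8 * 3, -1, PPH_ph β, by norm_num, by norm_num, by norm_num, PPH_norm_ph β hβ, ?_⟩
    intro s η hη
    have hη0 : η ≠ 0 := by linarith
    rw [hB _ (PPH_notmem t ht s η hη0)]
    have hx : 2 * Real.pi * I * (t * (s + η * I)) / t = 2 * Real.pi * I * (s + η * I) := by
      field_simp
    rw [hx]
    set Y := exp (2 * Real.pi * I * (s + η * I)) with hY
    have hY0 : Y ≠ 0 := exp_ne_zero _
    have hYn : ‖Y‖ = Real.exp (-(2 * Real.pi * η)) := PPH_normY s η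
    have hZn : ‖Y⁻¹‖ = Real.exp (-(2 * Real.pi * (-η))) := by
      rw [norm_inv, hYn, ← Real.exp_neg]
      congr 1
      ring
    have e1 : (α * Y ^ 2 + β * Y) / (Y - 1) ^ 2 = Y ^ (-1 : ℤ) * ((β + 0 * Y⁻¹) / (1 - Y⁻¹) ^ 2) := by
      rw [hα]
      have h2 : (Y - 1) ^ 2 = (1 - Y⁻¹) ^ 2 * Y ^ 2 := by
        field_simp
      rw [h2, zpow_neg_one]
      by_cases h3 : (1 - Y⁻¹) ^ 2 = 0
      · rw [h3]; simp
      · field_simp
        ring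
    rw [e1, ← PPH_phY s η (-1)]
    refine PPH_twist _ _ _ (zpow_ne_zero _ hY0) _ ?_
    have h3 := PPH_F β 0 Y⁻¹ hβ 3 (by simp) (by rw [hZn]; exact PPH_exp_small 3 (-η) le_rfl (by linarith))
    rw [hZn] at h3
    have e2 : -(2 * Real.pi * -η) = 2 * Real.pi * η := by ring
    rw [e2] at h3
    exact h3
  · refine ⟨16 * (‖β‖ / ‖α‖ + 3), 8 * (‖β‖ / ‖α‖ + 3), 0, PPH_ph α, by positivity, by positivity, le_rfl,
      PPH_norm_ph α hα, ?_⟩
    intro s η hη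
    have hk : 0 ≤ ‖β‖ / ‖α‖ := by positivity
    have hη0 : η ≠ 0 := by
      have : η < 0 := by linarith
      exact this.ne
    rw [hB _ (PPH_notmem t ht s η hη0)]
    have hx : 2 * Real.pi * I * (t * (s + η * I)) / t = 2 * Real.pi * I * (s + η * I) := by
      field_simp
    rw [hx]
    set Y := exp (2 * Real.pi * I * (s + η * I)) with hY
    have hY0 : Y ≠ 0 := exp_ne_zero _
    have hYn : ‖Y‖ = Real.exp (-(2 * Real.pi * η)) := PPH_normY s η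
    have hZn : ‖Y⁻¹‖ = Real.exp (-(2 * Real.pi * (-η))) := by
      rw [norm_inv, hYn, ← Real.exp_neg]
      congr 1
      ring
    have e1 : (α * Y ^ 2 + β * Y) / (Y - 1) ^ 2 = (α + β * Y⁻¹) / (1 - Y⁻¹) ^ 2 := by
      have h2 : (Y - 1) ^ 2 = (1 - Y⁻¹) ^ 2 * Y ^ 2 := by
        field_simp
      rw [h2]
      by_cases h3 : (1 - Y⁻¹) ^ 2 = 0
      · rw [h3]; simp
      · field_simp
    rw [e1]
    have e3 : cexp (-(2 * Real.pi * I * ((0 : ℤ) : ℂ) * s)) = 1 := by simp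
    rw [e3, mul_one]
    have h3 := PPH_F α β Y⁻¹ hα (‖β‖ / ‖α‖ + 3) le_rfl
      (by rw [hZn]; exact PPH_exp_small _ (-η) (by linarith) (by linarith))
    rw [hZn] at h3
    have e2 : -(2 * Real.pi * -η) = 2 * Real.pi * η := by ring
    rw [e2] at h3
    exact h3

theorem PPH : PPH_stmt := by
  intro B t α β ht hab hB
  obtain ⟨K₁, Y₁, j₁, c₁, hY₁, hK₁, hj₁, hc₁, h₁⟩ := PPH_up B t α β ht hab hB
  obtain ⟨K₂, Y₂, j₂, c₂, hY₂, hK₂, hj₂, hc₂, h₂⟩ := PPH_low B t α β ht hab hB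
  refine ⟨max K₁ K₂, max Y₁ Y₂, j₁, j₂, c₁, c₂, lt_max_of_lt_left hY₁, hj₁, hj₂, hc₁, hc₂, ?_, ?_⟩
  · intro s η hη
    refine (h₁ s η ((le_max_left _ _).trans hη)).trans ?_
    exact mul_le_mul_of_nonneg_right (le_max_left _ _) (Real.exp_pos _).le
  · intro s η hη
    refine (h₂ s η (hη.trans (neg_le_neg (le_max_right _ _)))).trans ?_
    exact mul_le_mul_of_nonneg_right (le_max_right _ _) (Real.exp_pos _).le

end V3
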